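import Pool.Agent.Helper98.GY.Defs

/-!
Isometric extensions of the strictly ergodic models of towers of torus extensions
(MP_7a8f48_an): statements of the modules of the sheet GY.
-/

open Finset Filter MeasureTheory Topology
open scoped ComplexConjugate InnerProductSpace

namespace Pool.Agent.Helper98.GY

open Pool.Agent.Helper98.TW (SA AM UF BF Sys IA Inc TI Tow MR NE SS)
open Pool.Agent.Helper16.AZ (T E Op mm)
open Pool.Agent.Helper16.BZ (co Wk EE ff EQ)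
open Pool.Agent.Helper16.MD (MS PB Am RW Rich)
open Pool.Agent.Helper40.JZ (LM)
open Pool.Agent.Helper40.TWM (HQ St NK NC)
open Pool.Agent.Helper40.IZ (cf Fr HO)

/-! ## Block R: Riemann integrable functions -/

/-- RIS: Riemann integrable functions are near continuous functions. -/
def ST_RIS : Prop := ∀ (Y : Type) [MetricSpace Y] [CompactSpace Y] [MeasurableSpace Y]
  [BorelSpace Y] (ν : Measure Y) [IsProbabilityMeasure ν]
  (V : Type) [NormedAddCommGroup V] [NormedSpace ℝ V]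
  (F : Y → V) (C : ℝ), (∀ᵐ x ∂ν, ContinuousAt F x) → (∀ x, ‖F x‖ ≤ C) →
  ∀ ε : ℝ, 0 < ε → ∃ (G : Y → V) (R : Y → ℝ), Continuous G ∧ Continuous R ∧
    (∀ x, ‖F x - G x‖ ≤ R x) ∧ (∀ x, R x ≤ 2 * C) ∧ (∀ x, ‖G x‖ ≤ C) ∧ ∫ x, R x ∂ν ≤ ε

/-- EQR: equidistribution for Riemann integrable functions. -/
def ST_EQR : Prop := ∀ (Y : Type) [MetricSpace Y] [CompactSpace Y] [MeasurableSpace Y]
  [BorelSpace Y] (ν : Measure Y) [IsProbabilityMeasure ν]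
  (S : Y → Y), EQ S ν → ∀ F : Y → ℂ, RI ν F →
  ∀ (p : ℕ) (x : Y), 1 ≤ p →
  Tendsto (fun N : ℕ => (∑ n ∈ range N, F (S^[p * n] x)) / (N : ℂ)) atTop
    (𝓝 (∫ y, F y ∂ν)) ∧
  Tendsto (fun N : ℕ => (∑ n ∈ Icc 1 N, F (S^[p * n] x)) / (N : ℂ)) atTop
    (𝓝 (∫ y, F y ∂ν))

/-! ## Block P: the two parts -/

/-- PTB: the structured part. -/
def ST_PTB : Prop := ∀ (Y : Type) [MetricSpace Y] [CompactSpace Y] [MeasurableSpace Y]
  [BorelSpace Y] (ν : Measure Y) [IsProbabilityMeasure ν] (d : ℕ) (S : Y → Y) (φ : Y → Op d)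
  (b : Y → E d) (u : E d) (x : Y) (ε : ℝ) (K : ℕ) (z : ℕ → ℂ) (g : ℕ → Y → E d),
  Continuous S → MeasurePreserving S ν ν →
  EQ S ν → UR ν φ → Continuous b → ‖u‖ ≤ 1 → 0 ≤ ε → (∀ k, ‖z k‖ = 1 ∧ Continuous (g k)) →
  (∀ h : ℕ, ∫ x, ‖Wk S φ h b x - ∑ k ∈ range K, (z k ^ h) • g k x‖ ^ 2 ∂ν ≤ ε ^ 2) →
  ∀ δ : ℝ, 0 < δ → ∀ᶠ N : ℕ in atTop, ‖MS (ff S φ b u x) N‖ ≤ (ε + δ) * N

/-- PTC: the random part. -/
def ST_PTC : Prop := ∀ η : ℝ, 0 < η → η ≤ 1 → ∃ κ : ℝ, 0 < κ ∧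
  ∀ (Y : Type) [MetricSpace Y] [CompactSpace Y] [MeasurableSpace Y]
  [BorelSpace Y] (ν : Measure Y) [IsProbabilityMeasure ν] (d : ℕ) (S : Y → Y) (φ : Y → Op d)
  (c : Y → E d) (u : E d) (x : Y)
  (H : ℕ), StrP S ν → Continuous S → MeasurePreserving S ν ν → EQ S ν → UR ν φ → Continuous c →
  ∫ x, ‖c x‖ ^ 2 ∂ν ≤ 3 / 2 → ‖u‖ ≤ 1 → 1 ≤ H →
  (∀ᶠ i : ℕ in atTop, Rich 1 i → ∑ p ∈ PB 1 i, ∑ h ∈ range H, ∑ h' ∈ range H,
    ‖∫ x, EE S φ c (p * h) (p * h') x ∂ν‖ ^ 2 ≤ κ * (PB 1 i).card * (H : ℝ) ^ 2) →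
  ∀ᶠ N : ℕ in atTop, ‖MS (ff S φ c u x) N‖ ≤ η * N

/-- THB: the theorem for all transformations with this property. -/
def ST_THB : Prop := ∀ (Y : Type) [MetricSpace Y] [CompactSpace Y] [MeasurableSpace Y]
  [BorelSpace Y] (ν : Measure Y) [IsProbabilityMeasure ν] (S : Y ≃ₜ Y), StrP (S : Y → Y) ν →
  MeasurePreserving S ν ν → EQ S ν → Good (S : Y → Y) ν

/-! ## Block J: joinings -/

/-- MSP: from ergodic joinings to the property of the random part. -/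
def ST_MSP : Prop := ∀ (Y : Type) [MetricSpace Y] [CompactSpace Y] [MeasurableSpace Y]
  [BorelSpace Y] (ν : Measure Y) [IsProbabilityMeasure ν] (S : Y → Y), Continuous S →
  MeasurePreserving S ν ν → EQ S ν →
  (∀ (d : ℕ) (φ : Y → Op d) (c : Y → E d), UR ν φ → Continuous c → ∀ ε : ℝ, 0 < ε →
    ∃ P₀ : ℕ, ∀ p ≥ P₀, p.Prime → ∀ q ≥ P₀, q.Prime → p ≠ q →
    ∀ κ : Measure (Y × Y), JY S ν p q κ → ∀ᶠ H : ℕ in atTop,
    aHY S φ c p q κ H ≤ √(LM (NK ν S φ c) p) * √(LM (NK ν S φ c) q) + ε) →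
  StrP S ν

/-- MHQ: the hull of an ergodic joining. -/
def ST_MHQ : Prop := ∀ (Y : Type) [MeasurableSpace Y] [StandardBorelSpace Y] (ν : Measure Y)
  [IsProbabilityMeasure ν] (S S' : Y → Y), Sys ν S S' → Mdl S ν →
  ∀ (R₀ k : ℕ) (G : Fin k → Y → ℂ) (ε : ℝ), 0 < ε →
  (∀ i, MemLp (G i) 2 ν) → ∃ q₀ : ℕ, ∀ q ≥ q₀, q.Prime → ∀ p : ℕ, p.Prime → p ≠ q →
  ∀ κ : Measure (Y × Y), JY S ν p q κ → ∃ C : SA Y, HQ ν S S' p q R₀ C ∧
    (∀ F : Y → ℂ, Measurable F → MemLp F 2 ν → ν[F|C] =ᵐ[ν] 0 →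
      JJY κ F ≤ ε * ∫ x, ‖F x‖ ^ 2 ∂ν) ∧
    ∀ i, ∫ x, ‖(ν[G i|C]) x - ∫ y, G i y ∂ν‖ ^ 2 ∂ν ≤ ε

/-- MST: the models are totally ergodic. -/
def ST_MST : Prop := ∀ (Y : Type) [MeasurableSpace Y] [StandardBorelSpace Y] (ν : Measure Y)
  [IsProbabilityMeasure ν] (S S' : Y → Y), Sys ν S S' → Mdl S ν → St ν S S'

/-- MLA: ergodic joinings of the powers. -/
def ST_MLA : Prop := ∀ (Y : Type) [MetricSpace Y] [CompactSpace Y] [MeasurableSpace Y]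
  [BorelSpace Y] (ν : Measure Y) [IsProbabilityMeasure ν] (S : Y ≃ₜ Y),
  MeasurePreserving S ν ν → Mdl (S : Y → Y) ν → ∀ (d : ℕ) (φ : Y → Op d) (c : Y → E d),
  UR ν φ → Continuous c → ∀ ε : ℝ, 0 < ε → ∃ P₀ : ℕ, ∀ p ≥ P₀, p.Prime → ∀ q ≥ P₀, q.Prime →
  p ≠ q → ∀ κ : Measure (Y × Y), JY (S : Y → Y) ν p q κ → ∀ᶠ H : ℕ in atTop,
    aHY (S : Y → Y) φ c p q κ H ≤ √(LM (NK ν (S : Y → Y) φ c) p) *
      √(LM (NK ν (S : Y → Y) φ c) q) + ε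

/-- UEQ: unique ergodicity and total ergodicity give equidistribution for all powers. -/
def ST_UEQ : Prop := ∀ (Y : Type) [MetricSpace Y] [CompactSpace Y] [MeasurableSpace Y]
  [BorelSpace Y] (ν : Measure Y) [IsProbabilityMeasure ν] (S : Y → Y), Continuous S →
  (∀ ν' : Measure Y, IsProbabilityMeasure ν' → MeasurePreserving S ν' ν' → ν' = ν) →
  (∀ m : ℕ, 1 ≤ m → Ergodic S^[m] ν) → EQ S ν

/-- GDY: the theorem for the models. -/
def ST_GDY : Prop := ∀ (Y : Type) [MetricSpace Y] [CompactSpace Y] [MeasurableSpace Y]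
  [BorelSpace Y] (ν : Measure Y) [IsProbabilityMeasure ν] (S : Y ≃ₜ Y),
  MeasurePreserving S ν ν → Mdl (S : Y → Y) ν →
  (∀ ν' : Measure Y, IsProbabilityMeasure ν' → MeasurePreserving S ν' ν' → ν' = ν) →
  Good (S : Y → Y) ν ∧ EQ (S : Y → Y) ν

/-- PUR: the theorem without extensions, for all uniquely ergodic models. -/
def ST_PUR : Prop := ∀ (Y : Type) [MetricSpace Y] [CompactSpace Y] [MeasurableSpace Y]
  [BorelSpace Y] (ν : Measure Y) [IsProbabilityMeasure ν] (S : Y → Y), Continuous S →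
  MeasurePreserving S ν ν → Mdl S ν →
  (∀ ν' : Measure Y, IsProbabilityMeasure ν' → MeasurePreserving S ν' ν' → ν' = ν) →
  ∀ (F : C(Y, ℂ)) (y : Y),
  Tendsto (fun N : ℕ => MS (fun n => F (S^[n] y)) N / (N : ℂ)) atTop (𝓝 0)

/-! ## Block G: geometry of the fibres -/

/-- CMP: the metric of `X` and the metric `ρ` of the fibres are uniformly equivalent. -/
def ST_CMP : Prop := ∀ (X Y : Type) [MetricSpace X] [CompactSpace X] [MetricSpace Y]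
  [CompactSpace Y] (π : X → Y) (S : Y → Y) (τ : X → X) (ρ : X → X → ℝ), IsoExt π S τ ρ →
  (∀ ε : ℝ, 0 < ε → ∃ δ : ℝ, 0 < δ ∧ ∀ x x', π x = π x' → ρ x x' < δ → dist x x' < ε) ∧
  ∀ ε : ℝ, 0 < ε → ∃ δ : ℝ, 0 < δ ∧ ∀ x x', π x = π x' → dist x x' < δ → ρ x x' < ε

/-- EQC: compactness (Arzela and Ascoli). -/
def ST_EQC : Prop := ∀ (X Y : Type) [MetricSpace X] [CompactSpace X] [MetricSpace Y]
  [CompactSpace Y] (π : X → Y) (S : Y → Y) (τ : X → X) (ρ : X → X → ℝ) (M : Type)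
  [MetricSpace M] [CompactSpace M],
  IsoExt π S τ ρ → IsCompact {p : Y × C(M, X) | p.2 ∈ Emb π ρ M p.1}

/-- EMB: isometries between the fibres (limits of `τ^n` along an ultrafilter). -/
def ST_EMB : Prop := ∀ (X Y : Type) [MetricSpace X] [CompactSpace X] [MetricSpace Y]
  [CompactSpace Y] [MeasurableSpace Y] [BorelSpace Y] (ν : Measure Y) [IsProbabilityMeasure ν]
  (π : X → Y) (S : Y → Y) (τ : X → X) (ρ : X → X → ℝ), IsoExt π S τ ρ → EQ S ν → Full ν →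
  ∀ y₀ y₁ : Y, ∃ g : X → X, ∀ x, π x = y₀ → π (g x) = y₁ ∧
    ∀ x', π x' = y₀ → ρ (g x) (g x') = ρ x x'

/-- MOD: the model. -/
def ST_MOD : Prop := ∀ (X Y : Type) [MetricSpace X] [CompactSpace X] [MetricSpace Y]
  [CompactSpace Y] [MeasurableSpace Y] [BorelSpace Y] (ν : Measure Y) [IsProbabilityMeasure ν]
  (π : X → Y) (S : Y → Y) (τ : X → X) (ρ : X → X → ℝ) (_ : X), IsoExt π S τ ρ → EQ S ν →
  Full ν → ∃ (M : Type) (_ : MetricSpace M) (_ : CompactSpace M) (Θ : Y → Set C(M, X)),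
    Nonempty M ∧ Mod π S τ M Θ

/-! ## Block F: functions on the fibres -/

/-- FRM: local frames. -/
def ST_FRM : Prop := ∀ (X Y : Type) [MetricSpace X] [CompactSpace X] [MetricSpace Y]
  [CompactSpace Y] (π : X → Y)
  (S : Y → Y) (τ : X → X) (M : Type) [MetricSpace M] [CompactSpace M] [MeasurableSpace M]
  [BorelSpace M] (μ : Measure M) [IsProbabilityMeasure μ] (Θ : Y → Set C(M, X)) (d : ℕ)
  (e : Fin d → C(M, ℂ)), Mod π S τ M Θ → Fr μ e → ∀ y₁ : Y,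
  ∃ (h : Fin d → C(X, ℂ)) (O : Set Y), IsOpen O ∧ y₁ ∈ O ∧
    ∀ y ∈ O, ∀ θ ∈ Θ y, IsUnit (HO μ e h θ)

/-- CVR: a finite cover and a choice which is locally constant almost everywhere. -/
def ST_CVR : Prop := ∀ (Y : Type) [MetricSpace Y] [CompactSpace Y] [MeasurableSpace Y]
  [BorelSpace Y] (ν : Measure Y) [IsProbabilityMeasure ν] (O : Y → Set Y),
  (∀ y, IsOpen (O y) ∧ y ∈ O y) →
  ∃ (n : ℕ) (c : Fin n → Y) (i : Y → Fin n), (∀ y, y ∈ O (c (i y))) ∧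
    ∀ᵐ y ∂ν, ∀ᶠ y' in 𝓝 y, i y' = i y

/-- CYC: the cocycle of a finite dimensional invariant space. -/
def ST_CYC : Prop := ∀ (X Y : Type) [MetricSpace X] [CompactSpace X] [MetricSpace Y]
  [CompactSpace Y] [MeasurableSpace Y] [BorelSpace Y] (ν : Measure Y) [IsProbabilityMeasure ν]
  (π : X → Y) (S : Y → Y) (τ : X → X) (M : Type) [MetricSpace M] [CompactSpace M]
  [MeasurableSpace M] [BorelSpace M] (μ : Measure M) [IsProbabilityMeasure μ]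
  (Θ : Y → Set C(M, X)) (d : ℕ)
  (e : Fin d → C(M, ℂ)), Mod π S τ M Θ → Fr μ e → Continuous S →
  MeasurePreserving S ν ν → FibreCts ν π τ → ∃ φ : Y → Op d, UR ν φ ∧
  ∀ F : C(X, ℂ), ∃ f : Y → E d, RI ν f ∧ ∀ y, ∀ θ ∈ Θ y, ∃ U ∈ unitary (Op d), ∀ n : ℕ,
    cf μ e (fun m => F (τ^[n] (θ m))) = U (star (co S φ n y) (f (S^[n] y)))

/-! ## Block A: assembly -/

/-- GRI: Riemann integrable vectors. -/
def ST_GRI : Prop := ∀ (Y : Type) [MetricSpace Y] [CompactSpace Y] [MeasurableSpace Y]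
  [BorelSpace Y] (ν : Measure Y) [IsProbabilityMeasure ν] (S : Y → Y), Good S ν → EQ S ν →
  ∀ (d : ℕ) (φ : Y → Op d) (v : Y → E d) (u : E d) (x : Y), UR ν φ → RI ν v →
  Tendsto (fun N : ℕ => MS (ff S φ v u x) N / (N : ℂ)) atTop (𝓝 0)

/-- FXC: the theorem for continuous functions. -/
def ST_FXC : Prop := ∀ (X Y : Type) [MetricSpace X] [CompactSpace X] [MetricSpace Y]
  [CompactSpace Y] [MeasurableSpace Y] [BorelSpace Y] (ν : Measure Y) [IsProbabilityMeasure ν]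
  (π : X → Y) (S : Y → Y) (τ : X → X) (ρ : X → X → ℝ), IsoExt π S τ ρ → Good S ν → EQ S ν →
  Full ν → Continuous S → MeasurePreserving S ν ν → FibreCts ν π τ → ∀ (F : C(X, ℂ)) (x : X),
  Tendsto (fun N : ℕ => MS (fun n => F (τ^[n] x)) N / (N : ℂ)) atTop (𝓝 0)

/-- RXS: functions which are continuous at almost all fibres are near continuous functions. -/
def ST_RXS : Prop := ∀ (X Y : Type) [MetricSpace X] [CompactSpace X] [MetricSpace Y]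
  [CompactSpace Y] [MeasurableSpace Y] [BorelSpace Y] (ν : Measure Y) [IsProbabilityMeasure ν]
  (π : X → Y) (F : X → ℂ) (C : ℝ), Continuous π → (∀ x, ‖F x‖ ≤ C) → FibreCts ν π F →
  ∀ ε : ℝ, 0 < ε →
  ∃ (G : C(X, ℂ)) (R : C(Y, ℝ)), (∀ x, ‖F x - G x‖ ≤ R (π x)) ∧ ∫ y, R y ∂ν ≤ ε

/-- FXR: the theorem for functions which are continuous at almost all fibres. -/
def ST_FXR : Prop := ∀ (X Y : Type) [MetricSpace X] [CompactSpace X] [MetricSpace Y]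
  [CompactSpace Y] [MeasurableSpace Y] [BorelSpace Y] (ν : Measure Y) [IsProbabilityMeasure ν]
  (π : X → Y) (S : Y → Y) (τ : X → X) (ρ : X → X → ℝ), IsoExt π S τ ρ → Good S ν → EQ S ν →
  Full ν → Continuous S → MeasurePreserving S ν ν → FibreCts ν π τ → ∀ (F : X → ℂ) (C : ℝ),
  (∀ x, ‖F x‖ ≤ C) → FibreCts ν π F → ∀ x : X,
  Tendsto (fun N : ℕ => MS (fun n => F (τ^[n] x)) N / (N : ℂ)) atTop (𝓝 0)

end Pool.Agent.Helper98.GY
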