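import Pool.Agent.Helper98.GY.Stmts
import Pool.Agent.Helper40.DZ.Stmts2

/-!
Sheet GY (MP_7a8f48_an): the statements on C*-algebras, for a general compact base.
-/

open Finset Filter MeasureTheory Topology
open scoped ComplexConjugate InnerProductSpace

namespace Pool.Agent.Helper98.GY

open Pool.Agent.Helper16.AZ (T E Op mm)
open Pool.Agent.Helper16.BZ (co ff)
open Pool.Agent.Helper16.MD (MS)
open Pool.Agent.Helper40.Mob (IsState TwistedDisjoint)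

universe u

/-- the theorem holds for `S` and all continuous cocycles -/
def GoodC {Y : Type} [TopologicalSpace Y] (S : Y → Y) : Prop := ∀ (d : ℕ) (φ : Y → Op d)
  (v : Y → E d) (u : E d) (x : Y), Continuous φ → (∀ y, φ y ∈ unitary (Op d)) →
  Continuous v → Tendsto (fun N : ℕ => MS (ff S φ v u x) N / (N : ℂ)) atTop (𝓝 0)

/-- `α` is given by `S` on the functions on `Y` -/
def Rot {B : Type u} [CStarAlgebra B] {Y : Type} [TopologicalSpace Y] [CompactSpace Y]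
    (S : C(Y, Y)) (α : B →⋆ₐ[ℂ] B) (π : C(Y, ℂ) →⋆ₐ[ℂ] B) : Prop :=
  ∀ f : C(Y, ℂ), α (π f) = π (f.comp S)

/-- the elements `v i` of the algebra are transformed by the continuous cocycle `Φ` -/
def Fam {A : Type u} [CStarAlgebra A] {Y : Type} [TopologicalSpace Y] [CompactSpace Y]
    (α : A →⋆ₐ[ℂ] A) (π : C(Y, ℂ) →⋆ₐ[ℂ] A)
    {ι : Type} [Fintype ι] [DecidableEq ι] (Φ : C(Y, Matrix ι ι ℂ)) (v : ι → A) : Prop :=
  (∀ x, Φ x ∈ Matrix.unitaryGroup ι ℂ) ∧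
  ∀ i, α (v i) = ∑ j, π ⟨fun x => Φ x i j, by fun_prop⟩ * v j

/-- CIT: the iterates of a family. -/
def ST_CIT : Prop := ∀ (A : Type u) [CStarAlgebra A] (Y : Type) [TopologicalSpace Y]
  [CompactSpace Y] (d : ℕ) (S : C(Y, Y))
  (α : A →⋆ₐ[ℂ] A) (π : C(Y, ℂ) →⋆ₐ[ℂ] A) (Φ : C(Y, Matrix (Fin d) (Fin d) ℂ))
  (v : Fin d → A), Rot S α π → Fam α π Φ v → ∀ (n : ℕ) (i : Fin d) (f : C(Y, ℂ)),
  ∃ F : Fin d → C(Y, ℂ),
  (∀ j x, F j x = f (S^[n] x) * inner ℂ (EuclideanSpace.single i (1 : ℂ))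
    (co S (fun x => Matrix.toEuclideanCLM (𝕜 := ℂ) (Φ x)) n x
      (EuclideanSpace.single j (1 : ℂ)))) ∧ α^[n] (π f * v i) = ∑ j, π (F j) * v j

/-- CTH: the theorem for one family. -/
def ST_CTH : Prop := ∀ (A : Type u) [CStarAlgebra A] (Y : Type) [MetricSpace Y]
  [CompactSpace Y] (d : ℕ) (S : C(Y, Y))
  (α : A →⋆ₐ[ℂ] A) (π : C(Y, ℂ) →⋆ₐ[ℂ] A) (Φ : C(Y, Matrix (Fin d) (Fin d) ℂ))
  (v : Fin d → A), GoodC S → Rot S α π → Fam α π Φ v →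
  ∀ (f : C(Y, ℂ)) i, TwistedDisjoint α (π f * v i)

/-- CSP: the theorem for the closed linear span. -/
def ST_CSP : Prop := ∀ (A : Type u) [CStarAlgebra A] (Y : Type) [MetricSpace Y]
  [CompactSpace Y] (S : C(Y, Y))
  (α : A →⋆ₐ[ℂ] A) (π : C(Y, ℂ) →⋆ₐ[ℂ] A), GoodC S → Rot S α π → ∀ a : A,
  a ∈ closure ((Submodule.span ℂ {x : A | ∃ (d : ℕ) (Φ : C(Y, Matrix (Fin d) (Fin d) ℂ))
    (v : Fin d → A), Fam α π Φ v ∧ ∃ (f : C(Y, ℂ)) (i : Fin d), π f * v i = x} :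
    Submodule ℂ A) : Set A) → TwistedDisjoint α a

end Pool.Agent.Helper98.GY
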