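import Pool.Agent.Helper40.TWM.Stmts
import Pool.Agent.Helper40.IZ.Stmts

/-!
Isometric extensions of the strictly ergodic models of towers of torus extensions
(MP_7a8f48_an): definitions for the modules of the sheet GY. The base is a compact metric
space `Y` with a measure `ν` (instead of a torus).
-/

open MeasureTheory Filter Topology Finset
open scoped ComplexConjugate

namespace Pool.Agent.Helper98.GY

open Pool.Agent.Helper98.TW (SA AM UF BF Sys IA Inc TI Tow MR NE SS)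
open Pool.Agent.Helper16.AZ (T E Op mm)
open Pool.Agent.Helper16.BZ (co Wk EE ff EQ)
open Pool.Agent.Helper16.MD (MS PB Am RW Rich)

section

variable {Y : Type} [TopologicalSpace Y] [MeasurableSpace Y]

/-- bounded functions with a null set of discontinuities (Riemann integrable functions) -/
def RI (ν : Measure Y) {V : Type} [NormedAddCommGroup V] (F : Y → V) : Prop :=
  (∀ᵐ x ∂ν, ContinuousAt F x) ∧ ∃ C : ℝ, ∀ x, ‖F x‖ ≤ C

/-- cocycles with unitary values and a null set of discontinuities -/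
def UR (ν : Measure Y) {d : ℕ} (φ : Y → Op d) : Prop :=
  (∀ᵐ x ∂ν, ContinuousAt φ x) ∧ ∀ x, φ x ∈ unitary (Op d)

/-- the theorem holds for `S` and all cocycles with a null set of discontinuities -/
def Good (S : Y → Y) (ν : Measure Y) : Prop := ∀ (d : ℕ) (φ : Y → Op d)
  (v : Y → E d) (u : E d) (x : Y), UR ν φ → Continuous v →
  Tendsto (fun N : ℕ => MS (ff S φ v u x) N / (N : ℂ)) atTop (𝓝 0)

/-- the property which is used for the random part -/
def StrP (S : Y → Y) (ν : Measure Y) : Prop := ∀ (d : ℕ) (φ : Y → Op d) (c : Y → E d)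
  (x : Y) (κ : ℝ) (H₀ : ℕ), UR ν φ → Continuous c → 0 < κ → 1 ≤ H₀ →
  (∀ᶠ i : ℕ in atTop, Rich 1 i → ∑ p ∈ PB 1 i, ∑ h ∈ range H₀, ∑ h' ∈ range H₀,
    ‖∫ x, EE S φ c (p * h) (p * h') x ∂ν‖ ^ 2 ≤ κ * (PB 1 i).card * (H₀ : ℝ) ^ 2) →
  ∀ᶠ i : ℕ in atTop, Rich 1 i → ∃ H : ℕ, 1 ≤ H ∧ ∀ Q ⊆ PB 1 i,
  ∀ᶠ M : ℕ in atTop, ∑ h ∈ range H, ∑ h' ∈ range H, ∑ y ∈ Icc 1 M,
    ‖∑ p ∈ Q, EE S φ c (p * h) (p * h') (S^[p * y] x)‖ ^ 2 ≤
      2 * κ * ((PB 1 i).card : ℝ) ^ 2 * (H : ℝ) ^ 2 * M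

/-- all nonempty open sets have positive measure -/
def Full (ν : Measure Y) : Prop := ∀ U : Set Y, IsOpen U → U.Nonempty → 0 < ν U

end

/-! ### joinings and isomorphisms -/

section

variable {Y : Type} [MeasurableSpace Y]

/-- ergodic joinings of two powers -/
structure JY (S : Y → Y) (ν : Measure Y) (p q : ℕ) (κ : Measure (Y × Y)) : Prop where
  prob : IsProbabilityMeasure κ
  fst : κ.map Prod.fst = ν
  snd : κ.map Prod.snd = ν
  erg : Ergodic (Prod.map S^[p] S^[q]) κ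

/-- the square norm of the conditional expectation of a function of the first coordinate given the
second coordinate -/
noncomputable def JJY (κ : Measure (Y × Y)) (F : Y → ℂ) : ℝ :=
  ∫ z, ‖(κ[fun z => F z.1|MeasurableSpace.comap Prod.snd inferInstance]) z‖ ^ 2 ∂κ

/-- the averages of the correlations for a joining -/
noncomputable def aHY {d : ℕ} (S : Y → Y) (φ : Y → Op d) (c : Y → E d) (p q : ℕ)
    (κ : Measure (Y × Y)) (H : ℕ) : ℝ :=
  (∑ h ∈ range H, ∑ h' ∈ range H, ∫ z, EE S φ c (p * h) (p * h') z.1 *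
    conj (EE S φ c (q * h) (q * h') z.2) ∂κ).re / (H : ℝ) ^ 2

/-- `ψ` is an isomorphism of the system `(Y, ν, S)` to the transformation `SS f` of the torus -/
structure Ism (S : Y → Y) (ν : Measure Y) {N : ℕ} (f : Fin N → T N → UnitAddCircle)
    (ψ : Y → T N) : Prop where
  mp : MeasurePreserving ψ ν (mm N)
  eqv : ∀ᵐ y ∂ν, ψ (S y) = SS f (ψ y)
  inj : ∃ A : Set Y, MeasurableSet A ∧ ν Aᶜ = 0 ∧ Set.InjOn ψ A

/-- `(Y, ν, S)` is isomorphic to a tower with `NE` over a minimal rotation -/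
def Mdl (S : Y → Y) (ν : Measure Y) : Prop :=
  ∃ (N : ℕ) (lev : Fin N → ℕ) (f : Fin N → T N → UnitAddCircle) (ψ : Y → T N),
    Tow lev f ∧ MR lev f ∧ NE lev f ∧ Ism S ν f ψ

end

/-! ### isometric extensions -/

/-- The map `τ` of the space `X` is an isometric extension of the map `S` of the space `Y`: the map
`π` from `X` to `Y` is continuous with `π τ = S π`, and `ρ` is a continuous function on the pairs
of points with the same image under `π` which is a metric on every fibre of `π` and is preserved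
by `τ`. (`τ` need not be continuous.) -/
def IsoExt {X Y : Type} [TopologicalSpace X] [TopologicalSpace Y] (π : X → Y)
    (S : Y → Y) (τ : X → X) (ρ : X → X → ℝ) : Prop :=
  Continuous π ∧ (∀ x, π (τ x) = S (π x)) ∧
  ContinuousOn (fun z : X × X => ρ z.1 z.2) {z | π z.1 = π z.2} ∧
  (∀ x x', π x = π x' → (ρ x x' = 0 ↔ x = x')) ∧
  (∀ x x', π x = π x' → ρ x x' = ρ x' x) ∧
  (∀ x x' x'', π x = π x' → π x' = π x'' → ρ x x'' ≤ ρ x x' + ρ x' x'') ∧
  ∀ x x', π x = π x' → ρ (τ x) (τ x') = ρ x x'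

/-- for almost all points `y` of the base the function `f` is continuous at all points of the
fibre of `π` over `y` -/
def FibreCts {X Y Z : Type} [TopologicalSpace X] [TopologicalSpace Z] [MeasurableSpace Y]
    (ν : Measure Y) (π : X → Y) (f : X → Z) : Prop :=
  ∀ᵐ y ∂ν, ∀ x, π x = y → ContinuousAt f x

/-- the isometries of `M` onto subsets of the fibre over `y` -/
def Emb {X Y : Type} [MetricSpace X] (π : X → Y) (ρ : X → X → ℝ) (M : Type)
    [MetricSpace M] (y : Y) : Set C(M, X) :=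
  {θ | (∀ m, π (θ m) = y) ∧ ∀ m m', ρ (θ m) (θ m') = dist m m'}

/-- the compact metric space `M` is a model of all fibres; `Θ y` is the set of the isometries of
`M` onto the fibre over `y` -/
def Mod {X Y : Type} [MetricSpace X] [TopologicalSpace Y] (π : X → Y) (S : Y → Y) (τ : X → X)
    (M : Type) [MetricSpace M] (Θ : Y → Set C(M, X)) : Prop :=
  (∀ y, (Θ y).Nonempty) ∧
  (∀ y, ∀ θ ∈ Θ y, Function.Injective θ ∧ ∀ x, π x = y ↔ ∃ m, θ m = x) ∧
  (∀ y, ∀ θ ∈ Θ y, ∀ θ' ∈ Θ y, ∃ k : M ≃ᵢ M, ∀ m, θ' m = θ (k m)) ∧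
  (∀ y, ∀ θ ∈ Θ y, ∀ k : M ≃ᵢ M, ∃ θ' ∈ Θ y, ∀ m, θ' m = θ (k m)) ∧
  (∀ y, ∀ θ ∈ Θ y, ∃ θ' ∈ Θ (S y), ∀ m, θ' m = τ (θ m)) ∧
  IsCompact {p : Y × C(M, X) | p.2 ∈ Θ p.1}

end Pool.Agent.Helper98.GY
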