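import Pool.Agent.Helper98.GY.Stmts

/-!
Sheet GY (MP_7a8f48_an): isomorphisms to towers.
-/

open MeasureTheory Filter Topology Finset
open scoped ComplexConjugate

namespace Pool.Agent.Helper98.GY

open Pool.Agent.Helper98.TW (SA AM UF BF Sys IA Inc TI Tow MR NE SS JN)
open Pool.Agent.Helper16.AZ (T mm)

variable {Y : Type} [MeasurableSpace Y] {ν : Measure Y} {S : Y → Y} {N : ℕ}
  {f : Fin N → T N → UnitAddCircle} {ψ : Y → T N}

/-- all functions on `Y` are functions of `ψ` -/
theorem Ism.lift {Z : Type} [TopologicalSpace Z] [TopologicalSpace.PseudoMetrizableSpace Z]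
    [MeasurableSpace Z] [BorelSpace Z] [Nonempty Z] [StandardBorelSpace Y]
    (h : Ism S ν f ψ) {F : Y → Z} (hF : AEStronglyMeasurable F ν) :
    ∃ G : T N → Z, Measurable G ∧ F =ᵐ[ν] fun y => G (ψ y) := by
  obtain ⟨A, hA, hA0, hinj⟩ := h.inj
  have hemb : MeasurableEmbedding (fun y : A => ψ y) := by
    have := hA.standardBorel
    refine Measurable.measurableEmbedding (h.mp.measurable.comp measurable_subtype_coe) ?_
    intro y y' hyy
    exact Subtype.ext (hinj y.2 y'.2 hyy)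
  obtain ⟨G, hG, hGF⟩ := hemb.exists_measurable_extend
    (hF.stronglyMeasurable_mk.measurable.comp measurable_subtype_coe : Measurable
      (fun y : A => hF.mk F y)) (fun _ => inferInstance)
  refine ⟨G, hG, ?_⟩
  have hAe : ∀ᵐ y ∂ν, y ∈ A := hA0
  filter_upwards [hF.ae_eq_mk, hAe] with y hy hyA
  have := congrFun hGF ⟨y, hyA⟩
  simp only [Function.comp_apply] at this
  rw [hy]
  exact this.symm

theorem Ism.iter (h : Ism S ν f ψ) (hS : MeasurePreserving S ν ν) (n : ℕ) :
    ∀ᵐ y ∂ν, ψ (S^[n] y) = (SS f)^[n] (ψ y) := by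
  induction n with
  | zero => exact Eventually.of_forall fun y => rfl
  | succ n ih =>
    have h1 : ∀ᵐ y ∂ν, ψ (S (S^[n] y)) = SS f (ψ (S^[n] y)) :=
      (hS.iterate n).quasiMeasurePreserving.ae h.eqv
    filter_upwards [ih, h1] with y hy hy1
    rw [Function.iterate_succ_apply', Function.iterate_succ_apply', hy1, hy]

/-- transport of null sets -/
theorem Ism.ae_iff (h : Ism S ν f ψ) {P : T N → Prop} (hP : MeasurableSet {x | P x}) :
    (∀ᵐ y ∂ν, P (ψ y)) ↔ ∀ᵐ x ∂(mm N), P x := by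
  rw [← h.mp.map_eq, ae_map_iff h.mp.measurable.aemeasurable hP]

theorem Ism.erg [StandardBorelSpace Y] (h : Ism S ν f ψ) (hS : MeasurePreserving S ν ν) (m : ℕ)
    (he : Ergodic (SS f)^[m] (mm N)) : Ergodic S^[m] ν := by
  refine ⟨hS.iterate m, ⟨fun s hs hinv => ?_⟩⟩
  obtain ⟨G, hG, hGs⟩ := h.lift (F := fun y => s.indicator (fun _ => (1 : ℂ)) y)
    (measurable_const.indicator hs).aestronglyMeasurable
  have h1 : ∀ᵐ x ∂(mm N), G ((SS f)^[m] x) = G x := by
    refine (h.ae_iff (measurableSet_eq_fun (hG.comp he.toMeasurePreserving.measurable) hG)).1 ?_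
    have h2 := (hS.iterate m).quasiMeasurePreserving.ae hGs
    filter_upwards [hGs, h2, h.iter hS m] with y hy1 hy2 hy3
    change G ((SS f)^[m] (ψ y)) = G (ψ y)
    rw [← hy3, ← hy2, ← hy1]
    have h4 : S^[m] y ∈ s ↔ y ∈ s := by
      rw [← Set.mem_preimage, hinv]
    by_cases hy : y ∈ s
    · simp [hy, h4.2 hy]
    · have hy' : S^[m] y ∉ s := fun h => hy (h4.1 h)
      simp [hy, hy']
  obtain ⟨c, hc⟩ := he.ae_eq_const_of_ae_eq_comp_ae hG.aestronglyMeasurable h1
  have h2 : ∀ᵐ y ∂ν, s.indicator (fun _ => (1 : ℂ)) y = c := by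
    have := (h.mp.quasiMeasurePreserving.ae hc)
    filter_upwards [hGs, this] with y h1 h2
    rw [h1, h2]; rfl
  rw [eventuallyConst_set']
  by_cases hc1 : c = 1
  · right
    filter_upwards [h2] with y hy
    by_cases hys : y ∈ s
    · exact propext ⟨fun _ => trivial, fun _ => hys⟩
    · simp [hys, hc1] at hy
  · left
    filter_upwards [h2] with y hy
    by_cases hys : y ∈ s
    · simp only [Set.indicator_of_mem hys] at hy
      exact absurd hy.symm hc1
    · exact propext ⟨fun h => (hys h).elim, fun h => h.elim⟩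

/-- transport of joinings -/
theorem Ism.jn (h : Ism S ν f ψ) (hS : MeasurePreserving S ν ν) {p q : ℕ}
    (hf : Measurable (SS f)) {κ : Measure (Y × Y)}
    (hκ : JY S ν p q κ) : JN f p q (κ.map (Prod.map ψ ψ)) ∧
      MeasurePreserving (Prod.map ψ ψ) κ (κ.map (Prod.map ψ ψ)) := by
  have hprob := hκ.prob
  have hm : Measurable (Prod.map ψ ψ) := h.mp.measurable.prodMap h.mp.measurable
  have hmp : MeasurePreserving (Prod.map ψ ψ) κ (κ.map (Prod.map ψ ψ)) := ⟨hm, rfl⟩
  have hfst : MeasurePreserving Prod.fst κ ν := ⟨measurable_fst, hκ.fst⟩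
  have hsnd : MeasurePreserving Prod.snd κ ν := ⟨measurable_snd, hκ.snd⟩
  have hTm : Measurable (Prod.map (SS f)^[p] (SS f)^[q]) :=
    (hf.iterate p).prodMap (hf.iterate q)
  have heq : ∀ᵐ z ∂κ, Prod.map ψ ψ (Prod.map S^[p] S^[q] z) =
      Prod.map (SS f)^[p] (SS f)^[q] (Prod.map ψ ψ z) := by
    have h1 := hfst.quasiMeasurePreserving.ae (h.iter hS p)
    have h2 := hsnd.quasiMeasurePreserving.ae (h.iter hS q)
    filter_upwards [h1, h2] with z hz1 hz2
    exact Prod.ext hz1 hz2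
  refine ⟨⟨Measure.isProbabilityMeasure_map hm.aemeasurable, ?_, ?_, ⟨⟨hTm, ?_⟩, ⟨?_⟩⟩⟩, hmp⟩
  · rw [Measure.map_map measurable_fst hm]
    have : Prod.fst ∘ Prod.map ψ ψ = ψ ∘ Prod.fst := rfl
    rw [this, ← Measure.map_map h.mp.measurable measurable_fst, hκ.fst, h.mp.map_eq]
  · rw [Measure.map_map measurable_snd hm]
    have : Prod.snd ∘ Prod.map ψ ψ = ψ ∘ Prod.snd := rfl
    rw [this, ← Measure.map_map h.mp.measurable measurable_snd, hκ.snd, h.mp.map_eq]
  · rw [Measure.map_map hTm hm]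
    have h1 : κ.map (Prod.map (SS f)^[p] (SS f)^[q] ∘ Prod.map ψ ψ) =
        κ.map (Prod.map ψ ψ ∘ Prod.map S^[p] S^[q]) := by
      refine Measure.map_congr ?_
      filter_upwards [heq] with z hz
      exact hz.symm
    rw [h1, ← Measure.map_map hm hκ.erg.toMeasurePreserving.measurable,
      hκ.erg.toMeasurePreserving.map_eq]
  · intro s hs hinv
    have h1 : (Prod.map ψ ψ) ⁻¹' s =ᵐ[κ] (∅ : Set (Y × Y)) ∨
        (Prod.map ψ ψ) ⁻¹' s =ᵐ[κ] (Set.univ : Set (Y × Y)) := by
      refine hκ.erg.quasiErgodic.ae_empty_or_univ₀ (hm hs).nullMeasurableSet ?_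
      filter_upwards [heq] with z hz
      refine propext ?_
      change Prod.map ψ ψ (Prod.map S^[p] S^[q] z) ∈ s ↔ Prod.map ψ ψ z ∈ s
      rw [hz]
      change Prod.map ψ ψ z ∈ (Prod.map (SS f)^[p] (SS f)^[q]) ⁻¹' s ↔ _
      rw [hinv]
    rw [eventuallyConst_set']
    rcases h1 with h1 | h1
    · left
      have h2 : κ.map (Prod.map ψ ψ) s = 0 := by
        rw [Measure.map_apply hm hs, measure_congr h1, measure_empty]
      exact ae_eq_empty.2 h2
    · right
      have h2 : κ.map (Prod.map ψ ψ) sᶜ = 0 := by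
        rw [Measure.map_apply hm hs.compl, Set.preimage_compl,
          measure_congr (h1.compl), Set.compl_univ, measure_empty]
      exact ae_eq_univ.2 h2

end Pool.Agent.Helper98.GY
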