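import Pool.Agent.Helper98.GY.Iso
import Pool.Agent.Helper98.TW.Jsm
import Pool.Agent.Helper47.TW.WLim
import Pool.Agent.Helper40.MoebiusPoly
import Pool.Agent.Helper16.AZ.Stmts
import Pool.Agent.Helper16.MD.Stmts

/-!
Sheet GY (MP_7a8f48_an), PUR: Moebius disjointness of the uniquely ergodic models of towers.
-/

open MeasureTheory Filter Topology Finset
open scoped ComplexConjugate ArithmeticFunction.Moebius

namespace Pool.Agent.Helper98.GY

open Pool.Agent.Helper98.TW (SA AM UF BF Sys IA Inc TI Tow MR NE SS JN JJ)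
open Pool.Agent.Helper16.AZ (T mm)
open Pool.Agent.Helper16.MD (MS PB Am RW Rich)

/-- the powers of a uniquely ergodic transformation with an ergodic power -/
theorem uniq_pow {Y : Type} [MeasurableSpace Y] {ν : Measure Y} [IsProbabilityMeasure ν]
    {S : Y → Y} (hSm : Measurable S)
    (huniq : ∀ ν' : Measure Y, IsProbabilityMeasure ν' → MeasurePreserving S ν' ν' → ν' = ν)
    {p : ℕ} (hp : 1 ≤ p) (he : Ergodic S^[p] ν) (ν' : Measure Y) (hν' : IsProbabilityMeasure ν')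
    (hinv : MeasurePreserving S^[p] ν' ν') : ν' = ν := by
  -- the average of the images of `ν'`
  let κ : Measure Y := (p : ENNReal)⁻¹ • ∑ i ∈ range p, ν'.map S^[i]
  have hp0 : (p : ENNReal) ≠ 0 := by
    have : p ≠ 0 := by omega
    exact_mod_cast this
  have hpt : (p : ENNReal) ≠ ⊤ := ENNReal.natCast_ne_top p
  have hm : ∀ i : ℕ, Measurable S^[i] := fun i => hSm.iterate i
  have hκp : IsProbabilityMeasure κ := by
    constructor
    simp only [κ, Measure.smul_apply, Measure.finset_sum_apply, smul_eq_mul]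
    have : ∀ i ∈ range p, (ν'.map S^[i]) Set.univ = 1 := by
      intro i _
      rw [Measure.map_apply (hm i) MeasurableSet.univ]
      simp
    rw [Finset.sum_congr rfl this]
    simp only [Finset.sum_const, Finset.card_range, nsmul_eq_mul, mul_one]
    exact ENNReal.inv_mul_cancel hp0 hpt
  have hκS : MeasurePreserving S κ κ := by
    refine ⟨hSm, ?_⟩
    simp only [κ, Measure.map_smul]
    congr 1
    rw [Measure.map_finset_sum hSm.aemeasurable]
    have h1 : ∀ i, (ν'.map S^[i]).map S = ν'.map S^[i + 1] := by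
      intro i
      rw [Measure.map_map hSm (hm i), Function.iterate_succ']
    simp only [h1]
    obtain ⟨n, rfl⟩ : ∃ n, p = n + 1 := ⟨p - 1, by omega⟩
    rw [Finset.sum_range_succ, Finset.sum_range_succ' (fun i => ν'.map S^[i])]
    congr 1
    rw [hinv.map_eq]
    simp
  have hκν : κ = ν := huniq κ hκp hκS
  have hac : ν' ≪ ν := by
    rw [← hκν]
    refine Measure.AbsolutelyContinuous.mk fun s hs h0 => ?_
    simp only [κ, Measure.smul_apply, Measure.finset_sum_apply, smul_eq_mul] at h0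
    have h1 : ∑ i ∈ range p, (ν'.map S^[i]) s = 0 := by
      rcases mul_eq_zero.1 h0 with h | h
      · exact absurd h (ENNReal.inv_ne_zero.2 hpt)
      · exact h
    have h2 := (Finset.sum_eq_zero_iff.1 h1) 0 (Finset.mem_range.2 (by omega))
    rw [Measure.map_apply (hm 0) hs] at h2
    simpa using h2
  exact he.eq_of_absolutelyContinuous hinv hac

theorem sq_le_two_pow (n : ℕ) (hn : 4 ≤ n) : n * n ≤ 2 ^ n := by
  induction n, hn using Nat.le_induction with
  | base => norm_num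
  | succ n hn ih =>
    rw [pow_succ]
    nlinarith

/-- the correlations of the powers along an orbit -/
theorem corr_ev (inv : TW.ST_INV) (eig : TW.ST_EIG) (erp : TW.ST_ERP) (nec : TW.ST_NEC)
    (mps : TW.ST_MPS) (jsm : TW.ST_JSM) (Y : Type) [MetricSpace Y] [CompactSpace Y]
    [MeasurableSpace Y] [BorelSpace Y] (ν : Measure Y) [IsProbabilityMeasure ν] (S : Y → Y)
    (hS : Continuous S) (hmp : MeasurePreserving S ν ν) (hM : Mdl S ν)
    (huniq : ∀ ν' : Measure Y, IsProbabilityMeasure ν' → MeasurePreserving S ν' ν' → ν' = ν)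
    (F : Y → ℂ) (hF : Continuous F) (hF1 : ∀ y, ‖F y‖ ≤ 1) (hF0 : ∫ y, F y ∂ν = 0)
    (ε₀ : ℝ) (hε₀ : 0 < ε₀) :
    ∃ q₀ : ℕ, ∀ q ≥ q₀, q.Prime → ∀ p : ℕ, p.Prime → p ≠ q → ∀ (y : Y) (ε : ℝ), 0 < ε →
      ∀ᶠ M : ℕ in atTop, ‖∑ n ∈ Finset.Icc 1 M, F (S^[p * n] y) * conj (F (S^[q * n] y))‖ ≤
        (ε₀ + ε) * M := by
  obtain ⟨N, lev, f, ψ, ht, hmr, hne, hI⟩ := hM
  obtain ⟨f', hti⟩ := inv N lev f ht
  have heg : ∀ m : ℕ, 1 ≤ m → TW.EG lev f m :=
    erp N lev f f' hti hmr (eig N lev f f' hti hmr (nec N lev f ht hne))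
  have hmS : Measurable (SS f) := by
    have := (mps N lev f f' hti 1).mp.measurable
    simpa using this
  obtain ⟨G, hG, hFG⟩ := hI.lift hF.aestronglyMeasurable
  have hGb : ∀ᵐ x ∂(mm N), ‖G x‖ ≤ 1 := by
    refine (hI.ae_iff (measurableSet_le hG.norm measurable_const)).1 ?_
    filter_upwards [hFG] with y hy
    rw [← hy]; exact hF1 y
  have hpm : IsProbabilityMeasure (mm N) := inferInstance
  have hG2 : MemLp G 2 (mm N) := MemLp.of_bound hG.aestronglyMeasurable 1 hGb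
  have hG0 : ∫ x, G x ∂(mm N) = 0 := by
    rw [← hI.mp.map_eq, integral_map hI.mp.measurable.aemeasurable hG.aestronglyMeasurable,
      ← integral_congr_ae hFG]
    exact hF0
  obtain ⟨q₀, hq₀⟩ := jsm N lev f ht hmr hne G hG2 hG0 (ε₀ ^ 2) (by positivity)
  refine ⟨q₀, fun q hq hqp p hp hpq y ε hε => ?_⟩
  refine Pool.Agent.Helper47.TW.wlim hS ν p q ?_ ?_ y F F hF hF ε₀ ?_ ε hε
  · exact fun ν' h1 h2 => uniq_pow hS.measurable huniq hp.one_lt.le
      (hI.erg hmp p (heg p hp.one_lt.le).1) ν' h1 h2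
  · exact fun ν' h1 h2 => uniq_pow hS.measurable huniq hqp.one_lt.le
      (hI.erg hmp q (heg q hqp.one_lt.le).1) ν' h1 h2
  · intro lam hl h1 h2 he
    obtain ⟨hjn, hlm⟩ := hI.jn hmp hmS (⟨hl, h1, h2, he⟩ : JY S ν p q lam)
    have h3 : ∫ z, F z.1 * conj (F z.2) ∂lam =
        ∫ z, G z.1 * conj (G z.2) ∂(lam.map (Prod.map ψ ψ)) := by
      have hmG : Measurable (fun z : T N × T N => G z.1 * conj (G z.2)) :=
        (hG.comp measurable_fst).mul (Complex.continuous_conj.measurable.comp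
          (hG.comp measurable_snd))
      rw [integral_map hlm.measurable.aemeasurable hmG.aestronglyMeasurable]
      refine integral_congr_ae ?_
      have a1 := (⟨measurable_fst, h1⟩ : MeasurePreserving Prod.fst lam ν).quasiMeasurePreserving.ae
        hFG
      have a2 := (⟨measurable_snd, h2⟩ : MeasurePreserving Prod.snd lam ν).quasiMeasurePreserving.ae
        hFG
      filter_upwards [a1, a2] with z hz1 hz2
      rw [hz1, hz2]
      rfl
    rw [h3]
    refine (TW.corr_le hjn.fst hjn.snd hjn.prob hG2 hG2).trans ?_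
    have h4 : √(JJ (lam.map (Prod.map ψ ψ)) G) ≤ ε₀ := by
      rw [show ε₀ = √(ε₀ ^ 2) from (Real.sqrt_sq hε₀.le).symm]
      exact Real.sqrt_le_sqrt (hq₀ q hq hqp p hp hpq _ hjn)
    have h5 : √(∫ x, ‖G x‖ ^ 2 ∂(mm N)) ≤ 1 := by
      refine (Real.sqrt_le_sqrt (?_ : _ ≤ (1 : ℝ))).trans (le_of_eq Real.sqrt_one)
      have h6 : ∫ x, ‖G x‖ ^ 2 ∂(mm N) ≤ ∫ _, (1 : ℝ) ∂(mm N) := by
        refine integral_mono_of_nonneg (Eventually.of_forall fun x => by positivity)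
          (integrable_const 1) ?_
        filter_upwards [hGb] with x hx
        nlinarith [norm_nonneg (G x)]
      simpa using h6
    calc √(JJ (lam.map (Prod.map ψ ψ)) G) * √(∫ x, ‖G x‖ ^ 2 ∂(mm N)) ≤ ε₀ * 1 :=
          mul_le_mul h4 h5 (Real.sqrt_nonneg _) hε₀.le
      _ = ε₀ := mul_one _

/-- a criterion of Katai -/
theorem kat_ev (hkt : Pool.Agent.Helper16.AZ.ST_KT1) (hw : Pool.Agent.Helper16.MD.ST_WND)
    (a : ℕ → ℂ) (ha : ∀ n, ‖a n‖ ≤ 1)
    (h : ∀ ε₀ : ℝ, 0 < ε₀ → ∃ q₀ : ℕ, ∀ q ≥ q₀, q.Prime → ∀ p : ℕ, p.Prime → p ≠ q →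
      ∀ ε : ℝ, 0 < ε → ∀ᶠ M : ℕ in atTop,
        ‖∑ n ∈ Finset.Icc 1 M, a (p * n) * conj (a (q * n))‖ ≤ (ε₀ + ε) * M) :
    Tendsto (fun N : ℕ => MS a N / (N : ℂ)) atTop (𝓝 0) := by
  by_contra hcon
  obtain ⟨η, hη, hη1, hfreq⟩ : ∃ η : ℝ, 0 < η ∧ η ≤ 1 ∧ ∃ᶠ N : ℕ in atTop, η * N ≤ ‖MS a N‖ := by
    rw [Metric.tendsto_atTop] at hcon
    push Not at hcon
    obtain ⟨η, hη, hcon⟩ := hcon
    refine ⟨min η 1, lt_min hη one_pos, min_le_right _ _, ?_⟩
    rw [Filter.frequently_atTop]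
    intro n
    obtain ⟨m, hm, hm2⟩ := hcon (n + 1)
    refine ⟨m, by omega, ?_⟩
    have hm0 : (0 : ℝ) < m := by exact_mod_cast (by omega : 0 < m)
    rw [dist_zero_right, norm_div, Complex.norm_natCast, le_div_iff₀ hm0] at hm2
    refine le_trans ?_ hm2
    exact mul_le_mul_of_nonneg_right (min_le_left _ _) hm0.le
  obtain ⟨q₀, hq₀⟩ := h (η ^ 2 / 4096) (by positivity)
  obtain ⟨K, hK2, hK⟩ := hw (64 / η ^ 2)
  obtain ⟨I₂, hI₂⟩ := pow_unbounded_of_one_lt (24 / η) (one_lt_two : (1 : ℝ) < 2)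
  obtain ⟨I₃, hI₃⟩ := exists_nat_gt (4 * (4096 / η ^ 2))
  obtain ⟨I, hI⟩ : ∃ I : ℕ, I = I₂ + I₃ + q₀ + 4 := ⟨_, rfl⟩
  have hmem : ∀ i ∈ RW 1 I K, I ≤ i ∧ 2 ^ i ≤ 4 * i * (PB 1 i).card := by
    intro i hi
    unfold RW at hi
    rw [Finset.mem_filter, Finset.mem_Ico] at hi
    exact ⟨hi.1.1, hi.2⟩
  have h24 : ∀ i ∈ RW 1 I K, 24 / η ≤ (2 : ℝ) ^ i := by
    intro i hi
    have h1 : I ≤ i := (hmem i hi).1
    exact hI₂.le.trans (pow_le_pow_right₀ one_le_two (by omega))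
  have hAm : 64 / η ^ 2 ≤ Am 1 (RW 1 I K) :=
    hK I 1 (by omega) le_rfl (Nat.one_le_two_pow)
  obtain ⟨i, hiR, hΓ⟩ := hkt η (RW 1 I K) a hη ha h24 hAm hfreq
  obtain ⟨hIi, hrich⟩ := hmem i hiR
  have hpb : ∀ p ∈ PB 1 i, p.Prime ∧ q₀ ≤ p := by
    intro p hp
    unfold PB at hp
    rw [Finset.mem_filter, Finset.mem_Ioc] at hp
    refine ⟨hp.2.1, ?_⟩
    have h1 : i < 2 ^ i := Nat.lt_two_pow_self
    omega
  have hres := hΓ (fun p p' => if p = p' then 1 else η ^ 2 / 4096) (by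
    intro p hp p' hp'
    obtain ⟨hp1, hp2⟩ := hpb p hp
    obtain ⟨hp1', hp2'⟩ := hpb p' hp'
    by_cases hpp : p = p'
    · subst hpp
      simp only [if_true]
      refine ⟨zero_le_one, fun ε hε => ⟨0, fun M _ => ?_⟩⟩
      calc ‖∑ y ∈ Icc 1 M, a (p * y) * conj (a (p * y))‖ ≤ ∑ y ∈ Icc 1 M, (1 : ℝ) := by
            refine (norm_sum_le _ _).trans (Finset.sum_le_sum fun y _ => ?_)
            rw [norm_mul, RCLike.norm_conj]
            nlinarith [ha (p * y), norm_nonneg (a (p * y))]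
        _ = M := by simp
        _ ≤ (1 + ε) * M := by nlinarith [(Nat.cast_nonneg M : (0 : ℝ) ≤ M)]
    · simp only [if_neg hpp]
      refine ⟨by positivity, fun ε hε => ?_⟩
      obtain ⟨M₀, hM₀⟩ := eventually_atTop.1 (hq₀ p' hp2' hp1' p hp1 hpp ε hε)
      exact ⟨M₀, fun M hM => hM₀ M hM⟩)
  obtain ⟨b, hb⟩ : ∃ b : ℝ, b = ((PB 1 i).card : ℝ) := ⟨_, rfl⟩
  have hsum : ∑ p ∈ PB 1 i, ∑ p' ∈ PB 1 i, (if p = p' then 1 else η ^ 2 / 4096 : ℝ) ≤
      b + η ^ 2 / 4096 * b ^ 2 := by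
    calc ∑ p ∈ PB 1 i, ∑ p' ∈ PB 1 i, (if p = p' then 1 else η ^ 2 / 4096 : ℝ)
        ≤ ∑ p ∈ PB 1 i, ∑ p' ∈ PB 1 i, ((if p = p' then 1 else 0 : ℝ) + η ^ 2 / 4096) := by
          refine Finset.sum_le_sum fun p _ => Finset.sum_le_sum fun p' _ => ?_
          have : 0 ≤ η ^ 2 / 4096 := by positivity
          by_cases hpp : p = p'
          · simp only [hpp, if_true]; linarith
          · simp only [if_neg hpp]; linarith
      _ = b + η ^ 2 / 4096 * b ^ 2 := by
          simp only [Finset.sum_add_distrib, Finset.sum_ite_eq, Finset.sum_const, nsmul_eq_mul]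
          rw [Finset.sum_congr rfl (fun p hp => if_pos hp)]
          simp only [Finset.sum_const, nsmul_eq_mul, mul_one, ← hb]
          ring
  have hres2 : (η / 32) ^ 2 * b ^ 2 ≤ b + η ^ 2 / 4096 * b ^ 2 := by
    rw [hb]
    rw [hb] at hsum
    exact hres.trans hsum
  have hi4 : 4 ≤ i := by omega
  have hbi : (i : ℝ) ≤ 4 * b := by
    have h1 : i * i ≤ 4 * i * (PB 1 i).card := (sq_le_two_pow i hi4).trans hrich
    have h2 : i ≤ 4 * (PB 1 i).card := by
      have : i * i ≤ i * (4 * (PB 1 i).card) := by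
        calc i * i ≤ 4 * i * (PB 1 i).card := h1
          _ = i * (4 * (PB 1 i).card) := by ring
      exact Nat.le_of_mul_le_mul_left this (by omega)
    rw [hb]
    exact_mod_cast h2
  have hI3i : (I₃ : ℝ) ≤ i := by exact_mod_cast (by omega : I₃ ≤ i)
  have hblarge : 4096 / η ^ 2 < b := by linarith
  have hη2 : 0 < η ^ 2 := by positivity
  have h6 : 4096 < b * η ^ 2 := by
    rw [div_lt_iff₀ hη2] at hblarge
    exact hblarge
  have hb0 : 0 < b := by
    have : 0 < 4096 / η ^ 2 := by positivity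
    linarith
  have h7 : (η / 32) ^ 2 * b ≤ 1 + η ^ 2 / 4096 * b := by
    have h8 : ((η / 32) ^ 2 * b) * b ≤ (1 + η ^ 2 / 4096 * b) * b := by nlinarith
    exact le_of_mul_le_mul_right h8 hb0
  nlinarith

/-- PUR: the theorem without extensions, for all uniquely ergodic models. -/
theorem st_PUR (hkt : Pool.Agent.Helper16.AZ.ST_KT1) (hw : Pool.Agent.Helper16.MD.ST_WND)
    (inv : TW.ST_INV) (eig : TW.ST_EIG) (erp : TW.ST_ERP) (nec : TW.ST_NEC)
    (mps : TW.ST_MPS) (jsm : TW.ST_JSM) : ST_PUR := by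
  intro Y _ _ _ _ ν _ S hS hmp hM huniq F y
  obtain ⟨c, hc⟩ : ∃ c : ℂ, c = ∫ y, F y ∂ν := ⟨_, rfl⟩
  obtain ⟨V, hV1, hV⟩ : ∃ V : ℝ, 1 ≤ V ∧ ∀ y, ‖F y - c‖ ≤ V := by
    obtain ⟨C, hC⟩ := (isCompact_range (by fun_prop : Continuous fun y => F y - c)).isBounded.exists_norm_le
    exact ⟨max C 1, le_max_right _ _, fun y => (hC _ (Set.mem_range_self y)).trans
      (le_max_left _ _)⟩
  have hV0 : (0 : ℝ) < V := by linarith
  have hVc : (V : ℂ) ≠ 0 := by exact_mod_cast hV0.ne'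
  have hFi : Integrable (fun y => F y) ν := F.continuous.integrable_of_hasCompactSupport
    (HasCompactSupport.of_compactSpace _)
  have key : Tendsto (fun N : ℕ => MS (fun n => (F (S^[n] y) - c) / V) N / (N : ℂ)) atTop
      (𝓝 0) := by
    refine kat_ev hkt hw _ (fun n => ?_) fun ε₀ hε₀ => ?_
    · rw [norm_div, Complex.norm_real, Real.norm_eq_abs, abs_of_pos hV0, div_le_one hV0]
      exact hV _
    · obtain ⟨q₀, hq₀⟩ := corr_ev inv eig erp nec mps jsm Y ν S hS hmp hM huniq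
        (fun y => (F y - c) / V) (by fun_prop) (fun y => by
          rw [norm_div, Complex.norm_real, Real.norm_eq_abs, abs_of_pos hV0, div_le_one hV0]
          exact hV _) (by
          rw [integral_div, integral_sub hFi (integrable_const c), ← hc]
          simp) ε₀ hε₀
      exact ⟨q₀, fun q hq hqp p hp hpq ε hε => hq₀ q hq hqp p hp hpq y ε hε⟩
  have hlin := Pool.Agent.Helper40.Weyl.moebius_linear 1 (by simp)
  have h1 : ∀ N : ℕ, MS (fun n => F (S^[n] y)) N / (N : ℂ) =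
      V * (MS (fun n => (F (S^[n] y) - c) / V) N / (N : ℂ)) +
      c * ((∑ n ∈ Finset.Icc 1 N, (μ n : ℂ) * 1 ^ n) / (N : ℂ)) := by
    intro N
    unfold MS
    rw [← mul_div_assoc, ← mul_div_assoc, ← add_div, Finset.mul_sum, Finset.mul_sum,
      ← Finset.sum_add_distrib]
    congr 1
    refine Finset.sum_congr rfl fun n _ => ?_
    field_simp
    ring
  rw [show (0 : ℂ) = V * 0 + c * 0 by simp]
  refine Tendsto.congr (fun N => (h1 N).symm) ?_
  exact (key.const_mul _).add (hlin.const_mul _)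

end Pool.Agent.Helper98.GY
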